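import Pool.Agent.Y6.G.Stm
import Pool.Agent.Y258.EF.CH5
import Pool.Agent.Y532.EF.Chain

/-!
# EP-CH4: the cascade in the truncated chain
-/

open Set Filter Topology
open scoped ComplexConjugate

set_option autoImplicit false

namespace Pool.Agent.Y532.EP.CH4

open Pool.Agent.Y6.G
open Pool.Agent.Y6.F (DSol Mx κr Prt)
open Pool.Agent.Y6.M (cX cY Uth εc x0)
open Pool.Agent.Y532.EF.Chain (exp_small log_le_sqrt pow_exp Uth_pos Uth_le εc_lt)
open Pool.Agent.Y258.EF.CH5 (barrier Mx_le)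

/-! ### numbers -/

lemma num0 {a : ℝ} (ha : 10 ^ 100 ≤ a) : 10 * a ^ 122 ≤ Real.exp (9 / 10 * a * (49 / 100) * 1) := by
  have h0 : (0 : ℝ) < 10 ^ 100 := by positivity
  have ha0 : 0 < a := h0.trans_le ha
  have hs : (10 : ℝ) ^ 50 ≤ √a := by
    apply Real.le_sqrt_of_sq_le
    calc ((10 : ℝ) ^ 50) ^ 2 = 10 ^ 100 := by rw [← pow_mul]
      _ ≤ a := ha
  have hs2 : √a * √a = a := Real.mul_self_sqrt ha0.le
  have h1 : (10 : ℝ) * a ^ 122 = Real.exp (Real.log 10 + 122 * Real.log a) := by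
    rw [Real.exp_add, Real.exp_log (by norm_num)]
    congr 1
    rw [mul_comm, Real.exp_mul, Real.exp_log ha0]
    norm_cast
  rw [h1]
  apply Real.exp_le_exp.2
  have h2 := log_le_sqrt ha0
  have h3 : Real.log 10 ≤ 9 := by
    have := Real.log_le_sub_one_of_pos (by norm_num : (0 : ℝ) < 10)
    linarith
  have h4 : (10 : ℝ) ^ 3 ≤ √a := le_trans (by norm_num) hs
  nlinarith

lemma num1 {a : ℝ} (ha : 10 ^ 100 ≤ a) (n : ℕ) (hn : (n : ℝ) + 3 ≤ a) :
    10 * a ^ (61 * 61 * (n + 3)) ≤ Real.exp (81 / 100 * a ^ 28) := by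
  have h0 : (0 : ℝ) < 10 ^ 100 := by positivity
  have ha0 : 0 < a := h0.trans_le ha
  have ha5 : (10 : ℝ) ^ 6 ≤ a := le_trans (by norm_num) ha
  have ha1 : (1 : ℝ) ≤ a := le_trans (by norm_num) ha5
  have h1 : (10 : ℝ) * a ^ (61 * 61 * (n + 3)) = Real.exp (Real.log 10 +
      ((61 * 61 * (n + 3) : ℕ) : ℝ) * Real.log a) := by
    rw [Real.exp_add, Real.exp_log (by norm_num), pow_exp ha0]
  rw [h1]
  apply Real.exp_le_exp.2
  have h3 : Real.log 10 ≤ 9 := by
    have := Real.log_le_sub_one_of_pos (by norm_num : (0 : ℝ) < 10)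
    linarith
  have h4 : Real.log a ≤ a := by
    have := Real.log_le_sub_one_of_pos ha0
    linarith
  have hK : ((61 * 61 * (n + 3) : ℕ) : ℝ) ≤ a * a := by
    have e : ((61 * 61 * (n + 3) : ℕ) : ℝ) = 3721 * ((n : ℝ) + 3) := by
      push_cast
      ring
    rw [e]
    calc 3721 * ((n : ℝ) + 3) ≤ 3721 * a := by gcongr
      _ ≤ a * a := by
        apply mul_le_mul_of_nonneg_right _ ha0.le
        exact le_trans (by norm_num) ha5
  have h5 : ((61 * 61 * (n + 3) : ℕ) : ℝ) * Real.log a ≤ a ^ 3 := by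
    calc ((61 * 61 * (n + 3) : ℕ) : ℝ) * Real.log a
        ≤ ((61 * 61 * (n + 3) : ℕ) : ℝ) * a := mul_le_mul_of_nonneg_left h4 (Nat.cast_nonneg _)
      _ ≤ (a * a) * a := mul_le_mul_of_nonneg_right hK ha0.le
      _ = a ^ 3 := by ring
  have h6 : a ^ 28 = a ^ 25 * a ^ 3 := by ring
  have h7 : (10 : ℝ) ^ 6 ≤ a ^ 25 := ha5.trans (le_self_pow₀ ha1 (by norm_num))
  have h8 : 1 ≤ a ^ 3 := one_le_pow₀ ha1
  rw [h6]
  nlinarith

section

variable {α : ℕ → ℝ}

lemma big (h0 : 10 ^ 100 ≤ α 0) (hs : ∀ n, α (n + 1) = α n ^ 61) (n : ℕ) :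
    10 ^ 100 ≤ α n := by
  induction n with
  | zero => exact h0
  | succ n ih =>
    rw [hs]
    have h1 : (1 : ℝ) ≤ α n := le_trans (by norm_num) ih
    exact ih.trans (le_self_pow₀ h1 (by omega))

lemma bign (h0 : 10 ^ 100 ≤ α 0) (hs : ∀ n, α (n + 1) = α n ^ 61) (n : ℕ) :
    (n : ℝ) + 3 ≤ α n := by
  induction n with
  | zero =>
    have h1 : (10 : ℝ) ≤ α 0 := le_trans (by norm_num) h0
    push_cast
    linarith
  | succ n ih =>
    have h1 : (2 : ℝ) ≤ α n := le_trans (by norm_num) (big h0 hs n)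
    have h2 : α n ≤ α n ^ 60 := le_self_pow₀ (by linarith) (by norm_num)
    have h3 : α n ^ 61 = α n ^ 60 * α n := by ring
    rw [hs, h3]
    push_cast
    nlinarith

lemma sqrt_big {a : ℝ} (ha : 1 ≤ a) : a ^ 30 ≤ √(a ^ 61) := by
  apply Real.le_sqrt_of_sq_le
  rw [← pow_mul]
  exact pow_le_pow_right₀ ha (by norm_num)

/-- a level below the last one stays strictly below twice its threshold -/
lemma strict (h00 : 10 ^ 100 ≤ α 0) (hs : ∀ n, α (n + 1) = α n ^ 61)
    {ν : ℕ → ℝ → ℝ} {x : ℕ → ℝ → ℂ} {θ : ℝ} (hθ0 : 0 ≤ θ) (n : ℕ)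
    (h0 : ν n 0 = εc α (n + 1)) (h0' : ν (n + 1) 0 = εc α (n + 2))
    (hlo : ∀ t ∈ Icc (0 : ℝ) θ, 48 / 100 * ν n t ≤ ‖x (n + 1) t‖)
    (h3 : ∀ s t : ℝ, 0 ≤ s → s ≤ t → t ≤ θ → ν n t ≤ ν n s * Real.exp (9 * α n * (t - s)))
    (h2 : ∀ s t c : ℝ, 0 ≤ s → s ≤ t → t ≤ θ → 0 ≤ c → (∀ r ∈ Icc s t, c ≤ ‖x (n + 1) r‖) →
      ν (n + 1) s * Real.exp (9 / 10 * α (n + 1) * c * (t - s)) ≤ 101 / 100 * ν (n + 1) t)
    (hup : 48 / 100 * ν (n + 1) θ ≤ ‖x (n + 2) θ‖) (hU : ‖x (n + 2) θ‖ ≤ 2 * Uth α (n + 2))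
    (hpos : ∀ t ∈ Icc (0 : ℝ) θ, 0 < ν n t) (hpos' : 0 ≤ ν (n + 1) (θ - ((α n) ^ 2)⁻¹))
    (hbad : 2 * Uth α (n + 1) ≤ 102 / 100 * ν n θ) : False := by
  have h : ∀ n, 10 ^ 100 ≤ α n := big h00 hs
  have hn3 := bign h00 hs n
  obtain ⟨a, ha⟩ : ∃ a, a = α n := ⟨_, rfl⟩
  have hab : 10 ^ 100 ≤ a := by rw [ha]; exact h n
  have ha4 : (10 : ℝ) ^ 4 ≤ a := le_trans (by norm_num) hab
  have ha0 : 0 < a := lt_of_lt_of_le (by norm_num) ha4
  have ha1 : 1 ≤ a := le_trans (by norm_num) ha4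
  rw [← ha] at hn3
  have hA : α (n + 1) = a ^ 61 := by
    rw [hs, ← ha]
  have hA2 : α (n + 2) = a ^ (61 * 61) := by
    have e1 : α (n + 2) = α (n + 1) ^ 61 := hs (n + 1)
    rw [e1, hs, ← ha, ← pow_mul]
  obtain ⟨U, hUd⟩ : ∃ U, U = Uth α (n + 1) := ⟨_, rfl⟩
  have hU0 : 0 < U := by rw [hUd]; exact Uth_pos h (n + 1)
  have hU1 : U ≤ 1 := by rw [hUd]; exact Uth_le h (n + 1)
  have hUe : α (n + 1) * U = √(a ^ 61) := by
    rw [hUd, hA]
    unfold Uth
    rw [hA]
    have i1 : 0 < a ^ 61 := by positivity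
    have i2 : 0 < √(a ^ 61) := Real.sqrt_pos.2 i1
    have i3 : √(a ^ 61) * √(a ^ 61) = a ^ 61 := Real.mul_self_sqrt i1.le
    calc a ^ 61 * (√(a ^ 61))⁻¹ = √(a ^ 61) * √(a ^ 61) * (√(a ^ 61))⁻¹ := by rw [i3]
      _ = √(a ^ 61) := by rw [mul_assoc, mul_inv_cancel₀ i2.ne', mul_one]
  rw [← hUd] at hbad
  obtain ⟨δ, hδ⟩ : ∃ δ, δ = (a ^ 2)⁻¹ := ⟨_, rfl⟩
  rw [← ha, ← hδ] at hpos'
  have hδ0 : 0 < δ := by rw [hδ]; positivity
  have hδa : 9 * a * δ ≤ 1 / 1000 := by
    have e1 : 9 * a * δ = 9 / a := by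
      rw [hδ]
      field_simp
    rw [e1, div_le_div_iff₀ ha0 (by norm_num)]
    linarith
  -- the lower bound near `θ`
  have key : ∀ t ∈ Icc (0 : ℝ) θ, θ - δ ≤ t → 19 / 10 * U ≤ ν n t := by
    intro t ht htδ
    have e1 := h3 t θ ht.1 ht.2 le_rfl
    rw [← ha] at e1
    have e2 : 9 * a * (θ - t) ≤ 1 / 1000 :=
      le_trans (mul_le_mul_of_nonneg_left (by linarith) (by positivity)) hδa
    have e3 := exp_small e2
    have e4 := hpos t ht
    have e5 : ν n t * Real.exp (9 * a * (θ - t)) ≤ ν n t * (1002 / 1000) :=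
      mul_le_mul_of_nonneg_left e3 e4.le
    nlinarith
  have hδθ : δ ≤ θ := by
    by_contra hcon
    push Not at hcon
    have e1 := key 0 ⟨le_rfl, hθ0⟩ (by linarith)
    rw [h0] at e1
    have e3 : εc α (n + 1) ≤ U := by
      have i1 : (1 : ℝ) ≤ α (n + 1) := le_trans (by norm_num) (h (n + 1))
      have i2 : (0 : ℝ) < α (n + 1) := by linarith
      have i3 : √(α (n + 1)) ≤ α (n + 1) ^ (n + 1 + 1) := by
        have j1 : √(α (n + 1)) ≤ α (n + 1) := by
          rw [Real.sqrt_le_left i2.le]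
          nlinarith
        exact j1.trans (le_self_pow₀ i1 (by omega))
      rw [hUd]
      unfold εc Uth
      exact inv_anti₀ (Real.sqrt_pos.2 i2) i3
    linarith
  have f1 := h2 (θ - δ) θ (9 / 10 * U) (by linarith) (by linarith) le_rfl (by positivity) (by
    intro r hr
    have hr' : r ∈ Icc (0 : ℝ) θ := ⟨by linarith [hr.1], hr.2⟩
    have i1 := key r hr' hr.1
    have i2 := hlo r hr'
    nlinarith)
  have f2 := h2 0 (θ - δ) 0 le_rfl (by linarith) (by linarith) le_rfl (fun r _ => norm_nonneg _)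
  have f3 : 81 / 100 * a ^ 28 ≤ 9 / 10 * α (n + 1) * (9 / 10 * U) * (θ - (θ - δ)) := by
    have i2 : a ^ 30 * δ = a ^ 28 := by
      have i3 : a ^ 30 = a ^ 28 * a ^ 2 := by ring
      rw [hδ, i3, mul_assoc, mul_inv_cancel₀ (by positivity), mul_one]
    calc 81 / 100 * a ^ 28 = 81 / 100 * (a ^ 30 * δ) := by rw [i2]
      _ ≤ 81 / 100 * (√(a ^ 61) * δ) := by
          have := sqrt_big ha1
          gcongr
      _ = 81 / 100 * ((α (n + 1) * U) * δ) := by rw [hUe]
      _ = _ := by ring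
  have f3' := Real.exp_le_exp.2 f3
  have f4 : 9 / 10 * α (n + 1) * 0 * (θ - δ - 0) = 0 := by ring
  rw [f4, Real.exp_zero, mul_one, h0'] at f2
  have f5 : 10 ≤ εc α (n + 2) * Real.exp (81 / 100 * a ^ 28) := by
    have i1 := num1 hab n hn3
    have i2 : εc α (n + 2) = (a ^ (61 * 61 * (n + 3)))⁻¹ := by
      unfold εc
      rw [hA2, ← pow_mul]
    have i3 : 0 < a ^ (61 * 61 * (n + 3)) := by positivity
    rw [i2, inv_mul_eq_div, le_div_iff₀ i3]
    exact i1
  have f6 := Uth_le h (n + 2)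
  have f7 := Real.exp_pos (81 / 100 * a ^ 28)
  have f8 : εc α (n + 2) * Real.exp (81 / 100 * a ^ 28) ≤
      101 / 100 * (ν (n + 1) (θ - δ) * Real.exp (81 / 100 * a ^ 28)) := by
    have := mul_le_mul_of_nonneg_right f2 f7.le
    linarith
  have f9 : ν (n + 1) (θ - δ) * Real.exp (81 / 100 * a ^ 28) ≤
      ν (n + 1) (θ - δ) * Real.exp (9 / 10 * α (n + 1) * (9 / 10 * U) * (θ - (θ - δ))) :=
    mul_le_mul_of_nonneg_left f3' hpos'
  linarith

lemma eps_pos (h : ∀ n, 10 ^ 100 ≤ α n) (n : ℕ) : 0 < εc α n := by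
  have h3 : (0 : ℝ) < α n := lt_of_lt_of_le (by positivity) (h n)
  unfold εc
  positivity

lemma eps_rel (h : ∀ n, 10 ^ 100 ≤ α n) (hs : ∀ n, α (n + 1) = α n ^ 61) (n : ℕ) :
    α n ^ 20 * (243 * εc α (n + 1)) < εc α n := by
  have hab := h n
  obtain ⟨a, ha⟩ : ∃ a, a = α n := ⟨_, rfl⟩
  unfold εc
  rw [hs, ← ha, ← pow_mul]
  rw [← ha] at hab
  have ha4 : (243 : ℝ) < a := lt_of_lt_of_le (by norm_num) hab
  have ha0 : 0 < a := by linarith
  have ha1 : 1 ≤ a := by linarith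
  obtain ⟨P, hP⟩ : ∃ P, P = a ^ (61 * (n + 1 + 1)) := ⟨_, rfl⟩
  have hP0 : 0 < P := by rw [hP]; positivity
  rw [← hP]
  have e1 : a ^ 20 * (243 * P⁻¹) = (243 * a ^ 20) / P := by
    rw [div_eq_mul_inv]
    ring
  rw [e1, div_lt_iff₀ hP0, inv_mul_eq_div, lt_div_iff₀ (by positivity)]
  calc 243 * a ^ 20 * a ^ (n + 1) < a * a ^ 20 * a ^ (n + 1) := by gcongr
    _ = a ^ (n + 22) := by ring
    _ ≤ P := by
      rw [hP]
      exact pow_le_pow_right₀ ha1 (by omega)

lemma uth_small (h : ∀ n, 10 ^ 100 ≤ α n) (hs : ∀ n, α (n + 1) = α n ^ 61) (n : ℕ) :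
    α n ^ 20 * (2 * Uth α (n + 1)) < (α n)⁻¹ := by
  have hab := h n
  unfold Uth
  rw [hs]
  obtain ⟨a, ha⟩ : ∃ a, a = α n := ⟨_, rfl⟩
  rw [← ha] at hab
  rw [← ha]
  have ha4 : (2 : ℝ) < a := lt_of_lt_of_le (by norm_num) hab
  have ha0 : 0 < a := by linarith
  have ha1 : 1 ≤ a := by linarith
  have h1 : (√(a ^ 61))⁻¹ ≤ (a ^ 30)⁻¹ := inv_anti₀ (by positivity) (sqrt_big ha1)
  calc a ^ 20 * (2 * (√(a ^ 61))⁻¹) ≤ a ^ 20 * (2 * (a ^ 30)⁻¹) := by gcongr
    _ = 2 / a ^ 10 := by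
      field_simp
    _ < a⁻¹ := by
      rw [div_lt_iff₀ (by positivity), inv_mul_eq_div, lt_div_iff₀ ha0]
      calc 2 * a < a * a := by gcongr
        _ = a ^ 2 := by ring
        _ ≤ a ^ 10 := pow_le_pow_right₀ ha1 (by norm_num)

/-! ### the running maximum -/

lemma Mx_ge {x y : ℕ → ℝ → ℂ} {n : ℕ} {s t : ℝ}
    (hb : ∀ s ∈ Icc 0 t, ‖x (n + 1) s‖ ≤ 1 ∧ ‖y n s‖ ≤ 1) (hs : s ∈ Icc 0 t) :
    ‖x (n + 1) s‖ ≤ Mx α x y (n + 1) t ∧ ‖y n s‖ ≤ Mx α x y (n + 1) t := by
  have h1 : BddAbove ((fun s => max ‖x (n + 1) s‖ ‖y n s‖) '' Icc 0 t) := by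
    refine ⟨1, ?_⟩
    rintro _ ⟨r, hr, rfl⟩
    exact max_le (hb r hr).1 (hb r hr).2
  have h2 : max ‖x (n + 1) s‖ ‖y n s‖ ≤ Mx α x y (n + 1) t := by
    change _ ≤ max (εc α (n + 1)) (sSup ((fun s => max ‖x (n + 1) s‖ ‖y n s‖) '' Icc 0 t))
    exact (le_csSup h1 ⟨s, hs, rfl⟩).trans (le_max_right _ _)
  exact ⟨(le_max_left _ _).trans h2, (le_max_right _ _).trans h2⟩

lemma eps_le {x y : ℕ → ℝ → ℂ} (n : ℕ) (t : ℝ) : εc α (n + 1) ≤ Mx α x y (n + 1) t := by
  change _ ≤ max (εc α (n + 1)) (sSup ((fun s => max ‖x (n + 1) s‖ ‖y n s‖) '' Icc 0 t))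
  exact le_max_left _ _

lemma eps_le' (h : ∀ n, 10 ^ 100 ≤ α n) {x y : ℕ → ℝ → ℂ} (n : ℕ) (t : ℝ) :
    εc α n ≤ Mx α x y n t := by
  cases n with
  | zero =>
    change (α 0 ^ (0 + 1))⁻¹ ≤ 1
    have h1 : (1 : ℝ) ≤ α 0 := le_trans (by norm_num) (h 0)
    exact inv_le_one_of_one_le₀ (one_le_pow₀ h1)
  | succ n => exact eps_le n t

lemma Mx_mono {x y : ℕ → ℝ → ℂ} {n : ℕ} {s t : ℝ}
    (hb : ∀ n, ∀ s ∈ Icc 0 t, ‖x (n + 1) s‖ ≤ 1 ∧ ‖y n s‖ ≤ 1) (hs : 0 ≤ s) (hst : s ≤ t) :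
    Mx α x y n s ≤ Mx α x y n t := by
  cases n with
  | zero => exact le_rfl
  | succ n =>
    exact Mx_le hs (eps_le n t) fun r hr => Mx_ge (hb n) ⟨hr.1, hr.2.trans hst⟩

end

lemma left_lim {f : ℝ → ℝ} {T c : ℝ} (hT : 0 < T) (hT1 : T ≤ 1) (hf : ContinuousOn f (Icc 0 1))
    (h : ∀ t ∈ Ico 0 T, f t ≤ c) : f T ≤ c := by
  have hcl : closure (Ico 0 T) = Icc 0 T := closure_Ico hT.ne
  have h1 : ContinuousOn f (closure (Ico 0 T)) := by
    rw [hcl]
    exact hf.mono (Icc_subset_Icc_right hT1)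
  have h2 : f T ∈ closure (f '' Ico 0 T) := by
    apply h1.image_closure
    refine ⟨T, ?_, rfl⟩
    rw [hcl]
    exact ⟨hT.le, le_rfl⟩
  have h3 : closure (f '' Ico 0 T) ⊆ Iic c := by
    apply closure_minimal _ isClosed_Iic
    rintro _ ⟨t, ht, rfl⟩
    exact h t ht
  exact h3 h2

/-- **The cascade in the truncated chain.** -/
theorem t_CHAIN : Pool.Agent.Y6.G.S_LVL → Pool.Agent.Y6.G.S_CHAIN := by
  intro hL α G b d hC N x y f g hD hxz hyz hx0 hy0 hP
  have hb : ∀ n, 10 ^ 100 ≤ α n := big hC.A0 hC.step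
  have hα0 : ∀ n, 0 < α n := fun n => lt_of_lt_of_le (by positivity) (hb n)
  have hα1 : ∀ n, 10 ≤ α n := fun n => le_trans (by norm_num) (hb n)
  -- the growth of the levels
  have lvl : ∀ θ ∈ Icc (0 : ℝ) 1, Cnd α x y θ → _ := fun θ hθ hc =>
    hL α G b d hC (N + 1) θ x y f g hθ.1 hθ.2
      ⟨fun n hn t ht => (hD.dx n hn t ⟨ht.1, ht.2.trans hθ.2⟩).mono (Icc_subset_Icc_right hθ.2),
        fun n hn t ht => (hD.dy n hn t ⟨ht.1, ht.2.trans hθ.2⟩).mono (Icc_subset_Icc_right hθ.2),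
        fun n t ht => hD.one n t ⟨ht.1, ht.2.trans hθ.2⟩⟩ hx0 hy0 hc (hP θ hθ hc)
  by_contra hcon
  push Not at hcon
  -- continuity
  have cx : ∀ n, ContinuousOn (x n) (Icc 0 1) := by
    intro n
    by_cases hn : n ≤ N + 1
    · exact fun t ht => (hD.dx n hn t ht).continuousWithinAt
    · exact continuousOn_const.congr fun t ht => hxz n (by omega) t ht
  have cy : ∀ n, ContinuousOn (y n) (Icc 0 1) := by
    intro n
    by_cases hn : n < N + 1
    · exact fun t ht => (hD.dy n hn t ht).continuousWithinAt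
    · exact continuousOn_const.congr fun t ht => hyz n (by omega) t ht
  have hUp := Uth_pos hb
  have hεp := eps_pos hb
  have hone : ∀ t : ℝ, t ≤ 1 → ∀ n, ∀ s ∈ Icc 0 t, ‖x (n + 1) s‖ ≤ 1 ∧ ‖y n s‖ ≤ 1 :=
    fun t ht n s hs => ⟨(hD.one (n + 1) s ⟨hs.1, hs.2.trans ht⟩).1,
      (hD.one n s ⟨hs.1, hs.2.trans ht⟩).2⟩
  have mono : ∀ n s t, 0 ≤ s → s ≤ t → t ≤ 1 → Mx α x y n s ≤ Mx α x y n t :=
    fun n s t hs hst ht => Mx_mono (hone t ht) hs hst
  have ge : ∀ n s t, 0 ≤ s → s ≤ t → t ≤ 1 →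
      ‖x (n + 1) s‖ ≤ Mx α x y (n + 1) t ∧ ‖y n s‖ ≤ Mx α x y (n + 1) t :=
    fun n s t hs hst ht => Mx_ge (hone t ht n) ⟨hs, hst⟩
  have hrel0 : ∀ n, α n ^ 20 * εc α (n + 1) ≤ εc α n := by
    intro n
    have h1 := eps_rel hb hC.step n
    have h2 := hεp (n + 1)
    have h3 : α n ^ 20 * εc α (n + 1) ≤ α n ^ 20 * (243 * εc α (n + 1)) := by
      have := hα0 n
      gcongr
      linarith
    linarith
  -- the levels which vanish
  have hzero : ∀ n, N + 1 ≤ n → ∀ t ∈ Icc (0 : ℝ) 1, Mx α x y (n + 1) t ≤ εc α (n + 1) := by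
    intro n hn t ht
    refine Mx_le ht.1 le_rfl fun s hs => ?_
    have hs1 : s ∈ Icc (0 : ℝ) 1 := ⟨hs.1, hs.2.trans ht.2⟩
    rw [hxz (n + 1) (by omega) s hs1, hyz n hn s hs1, norm_zero]
    exact ⟨(hεp _).le, (hεp _).le⟩
  have hzrel : ∀ n, N + 1 ≤ n → ∀ t ∈ Icc (0 : ℝ) 1,
      α n ^ 20 * Mx α x y (n + 1) t ≤ Mx α x y n t := by
    intro n hn t ht
    have h1 := hzero n hn t ht
    have h2 : α n ^ 20 * Mx α x y (n + 1) t ≤ α n ^ 20 * εc α (n + 1) :=
      mul_le_mul_of_nonneg_left h1 (pow_pos (hα0 n) 20).le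
    exact h2.trans ((hrel0 n).trans (eps_le' hb n t))
  -- at time zero
  have hn0 : ∀ n, ‖x (n + 1) 0‖ ≤ εc α (n + 1) ∧ ‖y n 0‖ ≤ εc α (n + 1) := by
    intro n
    constructor
    · by_cases hn : n + 1 ≤ N + 1
      · rw [hx0 (n + 1) hn]
        have e3 : ‖((x0 α (n + 1) : ℝ) : ℂ)‖ = εc α (n + 1) := by
          rw [Complex.norm_real]
          exact abs_of_pos (hεp (n + 1))
        rw [e3]
      · rw [hxz (n + 1) (by omega) 0 ⟨le_rfl, zero_le_one⟩, norm_zero]
        exact (hεp _).le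
    · rw [hy0 n, norm_zero]
      exact (hεp _).le
  have hst0 : ∀ n, ‖x (n + 1) 0‖ < 2 * Uth α (n + 1) ∧ ‖y n 0‖ < 2 * Uth α (n + 1) := fun n =>
    ⟨lt_of_le_of_lt (hn0 n).1 (εc_lt hb n), lt_of_le_of_lt (hn0 n).2 (εc_lt hb n)⟩
  have hc0 : Cnd α x y 0 := by
    constructor
    · intro n t ht
      have ht0 : t = 0 := le_antisymm ht.2 ht.1
      rw [ht0]
      exact ⟨(hst0 n).1.le, (hst0 n).2.le⟩
    · intro n t ht
      have ht0 : t = 0 := le_antisymm ht.2 ht.1
      rw [ht0]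
      have h1 : Mx α x y (n + 1) 0 ≤ εc α (n + 1) := by
        refine Mx_le le_rfl le_rfl fun s hs => ?_
        have hs0 : s = 0 := le_antisymm hs.2 hs.1
        rw [hs0]
        exact hn0 n
      have h2 : α n ^ 20 * Mx α x y (n + 1) 0 ≤ α n ^ 20 * εc α (n + 1) :=
        mul_le_mul_of_nonneg_left h1 (pow_pos (hα0 n) 20).le
      exact h2.trans ((hrel0 n).trans (eps_le' hb n 0))
  -- the set is closed
  have hclosed : IsClosed ({θ | Cnd α x y θ} ∩ Icc (0 : ℝ) 1) := by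
    apply isClosed_of_closure_subset
    intro T hT
    have hT01 : T ∈ Icc (0 : ℝ) 1 := by
      have h1 := closure_mono
        (inter_subset_right : {θ | Cnd α x y θ} ∩ Icc (0 : ℝ) 1 ⊆ Icc (0 : ℝ) 1) hT
      rwa [isClosed_Icc.closure_eq] at h1
    have h1 : ∀ t ∈ Ico 0 T, ∀ n, (‖x (n + 1) t‖ ≤ 2 * Uth α (n + 1) ∧
        ‖y n t‖ ≤ 2 * Uth α (n + 1)) ∧ α n ^ 20 * Mx α x y (n + 1) t ≤ Mx α x y n t := by
      intro t ht n
      obtain ⟨θ, hθ, hd⟩ := Metric.mem_closure_iff.1 hT (T - t) (by linarith [ht.2])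
      have hle : t ≤ θ := by
        rw [Real.dist_eq] at hd
        have := (abs_lt.1 hd).2
        linarith
      exact ⟨hθ.1.1 n t ⟨ht.1, hle⟩, hθ.1.2 n t ⟨ht.1, hle⟩⟩
    rcases hT01.1.eq_or_lt with h0 | h0
    · exact ⟨h0 ▸ hc0, hT01⟩
    have h2 : ∀ n, (‖x (n + 1) T‖ ≤ 2 * Uth α (n + 1) ∧
        ‖y n T‖ ≤ 2 * Uth α (n + 1)) ∧ α n ^ 20 * Mx α x y (n + 1) T ≤ Mx α x y n T := by
      intro n
      have hp := pow_pos (hα0 n) 20
      refine ⟨⟨left_lim (f := fun t => ‖x (n + 1) t‖) h0 hT01.2 (cx (n + 1)).norm fun t ht => (h1 t ht n).1.1,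
        left_lim (f := fun t => ‖y n t‖) h0 hT01.2 (cy n).norm fun t ht => (h1 t ht n).1.2⟩, ?_⟩
      have h3 : ∀ s ∈ Ico 0 T, Mx α x y (n + 1) s ≤ Mx α x y n T / α n ^ 20 := by
        intro s hs
        rw [le_div_iff₀ hp, mul_comm]
        exact ((h1 s hs n).2).trans (mono n s T hs.1 hs.2.le hT01.2)
      have h4 : ∀ s ∈ Icc 0 T, ‖x (n + 1) s‖ ≤ Mx α x y n T / α n ^ 20 ∧
          ‖y n s‖ ≤ Mx α x y n T / α n ^ 20 := by
        have h5 : ∀ s ∈ Ico 0 T, ‖x (n + 1) s‖ ≤ Mx α x y n T / α n ^ 20 ∧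
            ‖y n s‖ ≤ Mx α x y n T / α n ^ 20 := by
          intro s hs
          have h6 := ge n s s hs.1 le_rfl (hs.2.le.trans hT01.2)
          exact ⟨h6.1.trans (h3 s hs), h6.2.trans (h3 s hs)⟩
        intro s hs
        rcases hs.2.eq_or_lt with h6 | h6
        · rw [h6]
          exact ⟨left_lim (f := fun t => ‖x (n + 1) t‖) h0 hT01.2 (cx (n + 1)).norm fun t ht => (h5 t ht).1,
            left_lim (f := fun t => ‖y n t‖) h0 hT01.2 (cy n).norm fun t ht => (h5 t ht).2⟩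
        · exact h5 s ⟨hs.1, h6⟩
      have h7 : Mx α x y (n + 1) T ≤ Mx α x y n T / α n ^ 20 :=
        Mx_le h0.le ((eps_le n 0).trans (h3 0 ⟨le_rfl, h0⟩)) h4
      rw [le_div_iff₀ hp, mul_comm] at h7
      exact h7
    refine ⟨⟨?_, ?_⟩, hT01⟩
    · intro n t ht
      rcases ht.2.eq_or_lt with h6 | h6
      · rw [h6]
        exact (h2 n).1
      · exact (h1 t ⟨ht.1, h6⟩ n).1
    · intro n t ht
      rcases ht.2.eq_or_lt with h6 | h6
      · rw [h6]
        exact (h2 n).2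
      · exact (h1 t ⟨ht.1, h6⟩ n).2
  -- strict inequalities, first part
  have hstrict : ∀ θ ∈ Icc (0 : ℝ) 1, Cnd α x y θ → ∀ n, ‖x (n + 1) θ‖ < 2 * Uth α (n + 1) ∧
      ‖y n θ‖ < 2 * Uth α (n + 1) := by
    intro θ hθ hc n
    rcases hθ.1.eq_or_lt with h0 | h0
    · rw [← h0]
      exact hst0 n
    by_cases hn : n < N
    · obtain ⟨-, ν, hν⟩ := lvl θ hθ hc
      obtain ⟨a1, a2, a3, a4⟩ := hν n (by omega)
      obtain ⟨b1, b2, b3, b4⟩ := hν (n + 1) (by omega)
      have hθθ : θ ∈ Icc (0 : ℝ) θ := ⟨hθ.1, le_rfl⟩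
      have hno : ¬ 2 * Uth α (n + 1) ≤ 102 / 100 * ν n θ := by
        intro hbad
        by_cases hδ : ((α n) ^ 2)⁻¹ ≤ θ
        · have h5 : 0 < ((α n) ^ 2)⁻¹ := by
            have := hα0 n
            positivity
          exact strict hC.A0 hC.step hθ.1 n a1 b1 (fun t ht => (a2 t ht).2.1) a4 b3
            (b2 θ hθθ).2.1 (hc.1 (n + 1) θ hθθ).1 (fun t ht => (a2 t ht).1)
            (b2 _ ⟨by linarith, by linarith⟩).1.le hbad
        · -- too early
          push Not at hδ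
          have e1 := a4 0 θ le_rfl hθ.1 le_rfl
          have e2 : 9 * α n * (θ - 0) ≤ 1 / 1000 := by
            have i1 := hα0 n
            have i4 : (9000 : ℝ) ≤ α n := le_trans (by norm_num) (hb n)
            calc 9 * α n * (θ - 0) ≤ 9 * α n * ((α n) ^ 2)⁻¹ := by
                  rw [sub_zero]
                  gcongr
              _ = 9 / α n := by field_simp
              _ ≤ 1 / 1000 := by
                rw [div_le_div_iff₀ i1 (by norm_num)]
                linarith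
          have e3 := exp_small e2
          rw [a1] at e1
          have e4 := hεp (n + 1)
          have e5 : εc α (n + 1) * Real.exp (9 * α n * (θ - 0)) ≤
              εc α (n + 1) * (1002 / 1000) := mul_le_mul_of_nonneg_left e3 e4.le
          have e6 := uth_small hb hC.step n
          have e7 : εc α (n + 1) ≤ Uth α (n + 1) := by
            have i1 : (1 : ℝ) ≤ α (n + 1) := le_trans (by norm_num) (hb (n + 1))
            have i2 : (0 : ℝ) < α (n + 1) := by linarith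
            have i3 : √(α (n + 1)) ≤ α (n + 1) ^ (n + 1 + 1) := by
              have j1 : √(α (n + 1)) ≤ α (n + 1) := by
                rw [Real.sqrt_le_left i2.le]
                nlinarith
              exact j1.trans (le_self_pow₀ i1 (by omega))
            unfold εc Uth
            exact inv_anti₀ (Real.sqrt_pos.2 i2) i3
          have e8 := hUp (n + 1)
          linarith
      push Not at hno
      have c1 := (a2 θ hθθ).2.2
      exact ⟨lt_of_le_of_lt c1.1 hno, lt_of_le_of_lt c1.2 hno⟩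
    · by_cases hn2 : n = N
      · subst hn2
        have h1 := hcon θ h0 hθ.2 hc
        have := hUp (n + 1)
        exact ⟨by linarith [h1.1], by linarith [h1.2]⟩
      · have := hUp (n + 1)
        rw [hxz (n + 1) (by omega) θ hθ, hyz n (by omega) θ hθ, norm_zero]
        exact ⟨by linarith, by linarith⟩
  -- strict inequalities, second part
  have hstrict2 : ∀ θ ∈ Icc (0 : ℝ) 1, Cnd α x y θ → ∀ n,
      α n ^ 20 * Mx α x y (n + 1) θ < Mx α x y n θ := by
    intro θ hθ hc n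
    have hp := pow_pos (hα0 n) 20
    have hle : Mx α x y (n + 1) θ ≤ 2 * Uth α (n + 1) :=
      Mx_le hθ.1 (εc_lt hb n).le fun s hs => hc.1 n s hs
    have hsmall := uth_small hb hC.step n
    rcases le_or_gt (α n)⁻¹ (Mx α x y n θ) with h | h
    · exact lt_of_le_of_lt (mul_le_mul_of_nonneg_left hle hp.le) (hsmall.trans_le h)
    · have hmain : Mx α x y (n + 1) θ ≤ 243 * εc α (n + 1) := by
        cases n with
        | zero =>
          exfalso
          change 1 < (α 0)⁻¹ at h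
          have h1 : (α 0)⁻¹ ≤ 1 := inv_le_one_of_one_le₀ (by linarith [hα1 0])
          linarith
        | succ m =>
          by_cases hm : m + 1 ≤ N
          · have hPθ := hP θ hθ hc
            have hεm := hεp (m + 2)
            have hdx : ∀ t ∈ Icc (0 : ℝ) θ, HasDerivWithinAt (x (m + 2))
                (cX G b d (fun m => x m t) (fun m => y m t) (m + 2) + f (m + 2) t)
                (Icc 0 θ) t := fun t ht =>
              (hD.dx (m + 2) (by omega) t ⟨ht.1, ht.2.trans hθ.2⟩).mono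
                (Icc_subset_Icc_right hθ.2)
            have hdy : ∀ t ∈ Icc (0 : ℝ) θ, HasDerivWithinAt (y (m + 1))
                (cY G d (fun m => x m t) (m + 1) + g (m + 1) t) (Icc 0 θ) t := fun t ht =>
              (hD.dy (m + 1) (by omega) t ⟨ht.1, ht.2.trans hθ.2⟩).mono
                (Icc_subset_Icc_right hθ.2)
            have hbar := barrier hεm (by norm_num : (0 : ℝ) ≤ 5) hθ.1 hdx hdy
              (hn0 (m + 1)).1 (hn0 (m + 1)).2 (by
                intro t ht M hεM hM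
                have hM0 : 0 ≤ M := hεm.le.trans hεM
                have ht1 : t ≤ 1 := ht.2.trans hθ.2
                have hmx : Mx α x y (m + 2) t ≤ M := Mx_le ht.1 hεM hM
                have hGd : ∀ j, ‖G j‖ * d j ≤ 3 * α j := fun j =>
                  (mul_le_mul_of_nonneg_left (hC.db j) (norm_nonneg _)).trans (hC.hi j)
                have hd0 : ∀ j, 0 < d j := hC.dpos
                have hb0 : ∀ j, 0 < b j := fun j => (hC.dpos j).trans_le (hC.db j)
                have hxs : ‖x (m + 2) t‖ ≤ M := (hM t ⟨ht.1, le_rfl⟩).1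
                have hys : ‖y (m + 1) t‖ ≤ M := (hM t ⟨ht.1, le_rfl⟩).2
                have hxm : ‖x (m + 1) t‖ ≤ (α (m + 1))⁻¹ :=
                  ((ge m t θ ht.1 ht.2 hθ.2).1).trans h.le
                have hαm := hα0 (m + 1)
                have hcan : α (m + 1) * (α (m + 1))⁻¹ = 1 := mul_inv_cancel₀ hαm.ne'
                have hk : κr α (m + 2) ≤ 1 := by
                  change (α (m + 1) ^ 4)⁻¹ ≤ 1
                  exact inv_le_one_of_one_le₀ (one_le_pow₀ (by linarith [hα1 (m + 1)]))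
                have hMx0 : 0 ≤ Mx α x y (m + 2) t := hεm.le.trans (eps_le (m + 1) t)
                -- the main term
                have a1 : ‖conj (G (m + 1)) * (b (m + 1) : ℝ) * y (m + 1) t *
                    conj (x (m + 1) t)‖ ≤ 3 * M := by
                  rw [norm_mul, norm_mul, norm_mul, RCLike.norm_conj, RCLike.norm_conj,
                    Complex.norm_real, Real.norm_eq_abs, abs_of_pos (hb0 _)]
                  calc ‖G (m + 1)‖ * b (m + 1) * ‖y (m + 1) t‖ * ‖x (m + 1) t‖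
                      = (‖G (m + 1)‖ * b (m + 1)) * (‖y (m + 1) t‖ * ‖x (m + 1) t‖) := by ring
                    _ ≤ (3 * α (m + 1)) * (M * (α (m + 1))⁻¹) := by
                        have := hC.hi (m + 1)
                        gcongr
                    _ = 3 * M * (α (m + 1) * (α (m + 1))⁻¹) := by ring
                    _ = 3 * M := by rw [hcan, mul_one]
                -- the drain
                have a2 : ‖conj (G (m + 2)) * (b (m + 2) + d (m + 2) : ℝ) * y (m + 2) t *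
                    conj (x (m + 3) t)‖ ≤ M := by
                  rw [norm_mul, norm_mul, norm_mul, RCLike.norm_conj, RCLike.norm_conj,
                    Complex.norm_real, Real.norm_eq_abs, abs_of_pos (add_pos (hb0 _) (hd0 _))]
                  have c1 := (ge (m + 2) t t ht.1 le_rfl ht1).2
                  have c2 := (hone t ht1 (m + 2) t ⟨ht.1, le_rfl⟩).1
                  have c3 := hc.2 (m + 2) t ht
                  have c4 : 0 ≤ Mx α x y (m + 3) t := (norm_nonneg _).trans c1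
                  have c5 : ‖G (m + 2)‖ * (b (m + 2) + d (m + 2)) ≤ 6 * α (m + 2) := by
                    have := hC.hi (m + 2)
                    have := hGd (m + 2)
                    linarith
                  have c6 : 6 * α (m + 2) ≤ α (m + 2) ^ 20 := by
                    have i1 := hα1 (m + 2)
                    calc 6 * α (m + 2) ≤ α (m + 2) * α (m + 2) := by nlinarith
                      _ = α (m + 2) ^ 2 := by ring
                      _ ≤ α (m + 2) ^ 20 := pow_le_pow_right₀ (by linarith) (by norm_num)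
                  calc ‖G (m + 2)‖ * (b (m + 2) + d (m + 2)) * ‖y (m + 2) t‖ * ‖x (m + 3) t‖
                      ≤ α (m + 2) ^ 20 * Mx α x y (m + 3) t * 1 := by
                        have := hα0 (m + 2)
                        gcongr
                        exact c5.trans c6
                    _ ≤ M := by
                        rw [mul_one]
                        exact c3.trans hmx
                have a3 : ‖f (m + 2) t‖ ≤ M := by
                  refine ((hPθ (m + 2) t ht).1).trans ?_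
                  calc κr α (m + 2) * Mx α x y (m + 2) t ≤ 1 * M :=
                        mul_le_mul hk hmx hMx0 zero_le_one
                    _ = M := one_mul _
                have a4 : ‖G (m + 1) * (d (m + 1) : ℝ) * x (m + 1) t * x (m + 2) t‖ ≤ 3 * M := by
                  rw [norm_mul, norm_mul, norm_mul, Complex.norm_real, Real.norm_eq_abs,
                    abs_of_pos (hd0 _)]
                  calc ‖G (m + 1)‖ * d (m + 1) * ‖x (m + 1) t‖ * ‖x (m + 2) t‖
                      = (‖G (m + 1)‖ * d (m + 1)) * (‖x (m + 1) t‖ * ‖x (m + 2) t‖) := by ring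
                    _ ≤ (3 * α (m + 1)) * ((α (m + 1))⁻¹ * M) := by
                        have := hGd (m + 1)
                        gcongr
                    _ = 3 * M * (α (m + 1) * (α (m + 1))⁻¹) := by ring
                    _ = 3 * M := by rw [hcan, mul_one]
                have a5 : ‖g (m + 1) t‖ ≤ M := by
                  refine ((hPθ (m + 1) t ht).2).trans ?_
                  calc κr α (m + 1 + 1) * Mx α x y (m + 1 + 1) t ≤ 1 * M :=
                        mul_le_mul hk hmx hMx0 zero_le_one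
                    _ = M := one_mul _
                constructor
                · change ‖(conj (G (m + 1)) * (b (m + 1) : ℝ) * y (m + 1) t *
                    conj (x (m + 1) t) - conj (G (m + 2)) * (b (m + 2) + d (m + 2) : ℝ) *
                    y (m + 2) t * conj (x (m + 3) t)) + f (m + 2) t‖ ≤ 5 * M
                  refine (norm_add_le _ _).trans ?_
                  have := norm_sub_le (conj (G (m + 1)) * (b (m + 1) : ℝ) * y (m + 1) t *
                    conj (x (m + 1) t)) (conj (G (m + 2)) * (b (m + 2) + d (m + 2) : ℝ) *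
                    y (m + 2) t * conj (x (m + 3) t))
                  linarith
                · change ‖G (m + 1) * (d (m + 1) : ℝ) * x (m + 1) t * x (m + 2) t +
                    g (m + 1) t‖ ≤ 5 * M
                  refine (norm_add_le _ _).trans ?_
                  linarith)
            have hexp : ∀ t ∈ Icc (0 : ℝ) θ, Real.exp (5 * t) ≤ 243 := by
              intro t ht
              have h1 : Real.exp (5 * t) ≤ Real.exp 5 := Real.exp_le_exp.2 (by
                linarith [ht.2, hθ.2])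
              have h2 : Real.exp 5 ≤ 243 := by
                have h3 : Real.exp 5 = Real.exp 1 ^ 5 := by
                  rw [← Real.exp_nat_mul]
                  norm_num
                have h4 : Real.exp 1 ≤ 3 := by
                  have := Real.exp_one_lt_d9
                  linarith
                rw [h3]
                calc Real.exp 1 ^ 5 ≤ 3 ^ 5 := pow_le_pow_left₀ (Real.exp_pos _).le h4 5
                  _ = 243 := by norm_num
              linarith
            refine Mx_le hθ.1 (by linarith) fun s hs => ?_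
            have h1 := hbar s hs
            have h2 : εc α (m + 2) * Real.exp (5 * s) ≤ 243 * εc α (m + 2) := by
              rw [mul_comm]
              exact mul_le_mul_of_nonneg_right (hexp s hs) hεm.le
            exact ⟨h1.1.trans h2, h1.2.trans h2⟩
          · have h1 := hzero (m + 1) (by omega) θ hθ
            have h2 := hεp (m + 1 + 1)
            linarith
      have h1 : α n ^ 20 * Mx α x y (n + 1) θ ≤ α n ^ 20 * (243 * εc α (n + 1)) :=
        mul_le_mul_of_nonneg_left hmain hp.le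
      exact lt_of_le_of_lt h1 (lt_of_lt_of_le (eps_rel hb hC.step n) (eps_le' hb n θ))
  -- continuation
  have hgt : ∀ θ ∈ {θ | Cnd α x y θ} ∩ Ico (0 : ℝ) 1, ∀ z ∈ Ioi θ,
      ({θ | Cnd α x y θ} ∩ Ioc θ z).Nonempty := by
    rintro θ ⟨hc, hθ⟩ z hz
    have hθ' : θ ∈ Icc (0 : ℝ) 1 := ⟨hθ.1, hθ.2.le⟩
    have hs := hstrict θ hθ' hc
    have hs2 := hstrict2 θ hθ' hc
    have hcc : ∀ n, Mx α x y (n + 1) θ < Mx α x y n θ / α n ^ 20 := by
      intro n
      rw [lt_div_iff₀ (pow_pos (hα0 n) 20), mul_comm]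
      exact hs2 n
    have hev : ∀ᶠ t in 𝓝[Icc (0 : ℝ) 1] θ, ∀ n ∈ Finset.range (N + 1),
        (‖x (n + 1) t‖ < 2 * Uth α (n + 1) ∧ ‖y n t‖ < 2 * Uth α (n + 1)) ∧
        (‖x (n + 1) t‖ < Mx α x y n θ / α n ^ 20 ∧ ‖y n t‖ < Mx α x y n θ / α n ^ 20) := by
      rw [Filter.eventually_all_finset]
      intro n _
      have h1 := ((cx (n + 1)) θ hθ').norm.eventually_lt_const (hs n).1
      have h2 := ((cy n) θ hθ').norm.eventually_lt_const (hs n).2
      have g1 := ge n θ θ hθ.1 le_rfl hθ.2.le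
      have h3 := ((cx (n + 1)) θ hθ').norm.eventually_lt_const (lt_of_le_of_lt g1.1 (hcc n))
      have h4 := ((cy n) θ hθ').norm.eventually_lt_const (lt_of_le_of_lt g1.2 (hcc n))
      exact (h1.and h2).and (h3.and h4)
    obtain ⟨ε, hε, hball⟩ := Metric.mem_nhdsWithin_iff.1 hev
    obtain ⟨z', hz'⟩ : ∃ z', z' = min z (min (θ + ε / 2) 1) := ⟨_, rfl⟩
    have hz1 : θ < z' := by
      rw [hz']
      exact lt_min hz (lt_min (by linarith) hθ.2)
    have hz2 : z' ≤ z := by rw [hz']; exact min_le_left _ _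
    have hz3 : z' ≤ θ + ε / 2 := by
      rw [hz']; exact (min_le_right _ _).trans (min_le_left _ _)
    have hz4 : z' ≤ 1 := by
      rw [hz']; exact (min_le_right _ _).trans (min_le_right _ _)
    have hmem : ∀ t, θ < t → t ≤ z' → ∀ n < N + 1,
        (‖x (n + 1) t‖ < 2 * Uth α (n + 1) ∧ ‖y n t‖ < 2 * Uth α (n + 1)) ∧
        (‖x (n + 1) t‖ < Mx α x y n θ / α n ^ 20 ∧ ‖y n t‖ < Mx α x y n θ / α n ^ 20) := by
      intro t h1 h2 n hn
      have ht1 : t ∈ Icc (0 : ℝ) 1 := ⟨hθ.1.trans h1.le, h2.trans hz4⟩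
      have h3 : t ∈ Metric.ball θ ε ∩ Icc (0 : ℝ) 1 := by
        refine ⟨?_, ht1⟩
        rw [Metric.mem_ball, Real.dist_eq, abs_of_pos (by linarith)]
        linarith
      exact hball h3 n (Finset.mem_range.2 hn)
    refine ⟨z', ⟨?_, ?_⟩, hz1, hz2⟩
    · intro n t ht
      rcases le_or_gt t θ with h1 | h1
      · exact hc.1 n t ⟨ht.1, h1⟩
      · have ht1 : t ∈ Icc (0 : ℝ) 1 := ⟨ht.1, ht.2.trans hz4⟩
        by_cases hn : n < N + 1
        · have h3 := (hmem t h1 ht.2 n hn).1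
          exact ⟨h3.1.le, h3.2.le⟩
        · have := hUp (n + 1)
          rw [hxz (n + 1) (by omega) t ht1, hyz n (by omega) t ht1, norm_zero]
          exact ⟨by linarith, by linarith⟩
    · intro n t ht
      rcases le_or_gt t θ with h1 | h1
      · exact hc.2 n t ⟨ht.1, h1⟩
      · have ht1 : t ∈ Icc (0 : ℝ) 1 := ⟨ht.1, ht.2.trans hz4⟩
        by_cases hn : n < N + 1
        · have h5 : Mx α x y (n + 1) t ≤ Mx α x y n θ / α n ^ 20 := by
            refine Mx_le ht.1 ((eps_le n θ).trans (hcc n).le) fun s hs => ?_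
            rcases le_or_gt s θ with h6 | h6
            · have h7 := ge n s θ hs.1 h6 hθ.2.le
              exact ⟨h7.1.trans (hcc n).le, h7.2.trans (hcc n).le⟩
            · have h7 := (hmem s h6 (hs.2.trans ht.2) n hn).2
              exact ⟨h7.1.le, h7.2.le⟩
          rw [le_div_iff₀ (pow_pos (hα0 n) 20), mul_comm] at h5
          exact h5.trans (mono n θ t hθ.1 h1.le ht1.2)
        · exact hzrel n (by omega) t ht1
  have hall := hclosed.Icc_subset_of_forall_exists_gt hc0 hgt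
  -- the contradiction at time one
  have h11 : (1 : ℝ) ∈ Icc (0 : ℝ) 1 := ⟨zero_le_one, le_rfl⟩
  have hc1 : Cnd α x y 1 := hall h11
  obtain ⟨h49, ν, hν⟩ := lvl 1 h11 hc1
  obtain ⟨a1, a2, a3, a4⟩ := hν 0 (by omega)
  have e1 := a3 0 1 (49 / 100) le_rfl zero_le_one le_rfl (by norm_num) h49
  rw [a1] at e1
  have e2 := (a2 1 h11).2.1
  have e3 := (hc1.1 0 1 h11).1
  have e4 := Uth_le hb (0 + 1)
  have e5 := num0 (hb 0)
  have e6 : εc α (0 + 1) = (α 0 ^ 122)⁻¹ := by
    unfold εc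
    rw [hC.step, ← pow_mul]
  have e7 : 10 ≤ εc α (0 + 1) * Real.exp (9 / 10 * α 0 * (49 / 100) * (1 - 0)) := by
    have h0 : (0 : ℝ) < α 0 := lt_of_lt_of_le (by positivity) (hb 0)
    rw [e6, inv_mul_eq_div, le_div_iff₀ (by positivity), sub_zero]
    exact e5
  linarith

end Pool.Agent.Y532.EP.CH4
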